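import Pool.Agent.helper27.PC2.Stmt2
import Pool.Agent.helper15.PC.CARD

/-!
# Module CARDD of project PC: the order of `W(D_n)`
-/

namespace Pool.Agent.helper27.PC

open Module Polynomial

theorem CARDD_sign_gen {n : ℕ} (hn : 1 ≤ n) :
    Equiv.Perm.sign (gen n ⟨0, hn⟩ : Equiv.Perm (Fin n × Bool)) = -1 := by
  show Equiv.Perm.sign (genPerm n ⟨0, hn⟩) = -1
  unfold genPerm
  rw [if_pos rfl]
  exact Equiv.Perm.sign_swap (by simp)

theorem CARDD_range {n : ℕ} (hn : 1 ≤ n) :
    (Equiv.Perm.sign.comp (W n).subtype).range = ⊤ := by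
  rw [MonoidHom.range_eq_top]
  intro u
  rcases Int.units_eq_one_or u with rfl | rfl
  · exact ⟨1, map_one _⟩
  · exact ⟨gen n ⟨0, hn⟩, CARDD_sign_gen hn⟩

theorem CARDD : CARDD_stmt := by
  intro n hn
  rw [← CARD n]
  have h1 := Subgroup.card_mul_index (WD n)
  have h2 : (WD n).index = 2 := by
    unfold WD
    rw [Subgroup.index_ker, CARDD_range hn, Nat.card_congr (Subgroup.topEquiv (G := ℤˣ)).toEquiv]
    simp
  rw [← h1, h2, mul_comm]

end Pool.Agent.helper27.PC
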